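import Pool.Agent.MP_2aae10_lc.Mg.Reduce

/-!
A non-meager P-filter is a dense completely Baire centered family.
-/

namespace Pool.Agent.MP_2aae10_lc

open Set Filter Topology

lemma isOpen_agree (x : ℕ → Bool) (k : ℕ) : IsOpen {z : ℕ → Bool | ∀ i < k, z i = x i} := by
  have : {z : ℕ → Bool | ∀ i < k, z i = x i} = {z | res z k = res x k} := by
    ext z
    exact ⟨fun h => funext fun i => h i i.2, fun h i hi => congrFun h ⟨i, hi⟩⟩
  rw [this]; exact isOpen_res _ _

lemma exists_agree {x : ℕ → Bool} {U : Set (ℕ → Bool)} (hU : U ∈ 𝓝 x) :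
    ∃ k, ∀ z : ℕ → Bool, (∀ i < k, z i = x i) → z ∈ U := by
  rw [nhds_pi, mem_pi'] at hU
  obtain ⟨I, t, ht, hIU⟩ := hU
  obtain ⟨k, hk⟩ := I.finite_toSet.bddAbove
  refine ⟨k + 1, fun z hz => hIU fun i hi => ?_⟩
  rw [hz i (Nat.lt_succ_of_le (hk hi))]
  exact mem_of_mem_nhds (ht i)

lemma exists_gaps {Y : Set (ℕ → Bool)} (hY : ¬ IsMeagre Y) (g : ℕ → ℕ) :
    ∃ y ∈ Y, ∀ N, ∃ k, N ≤ k ∧ ∀ i, k ≤ i → i < g k → y i = false := by
  have h1 : ∀ N : ℕ, {y : ℕ → Bool | ∃ k, N ≤ k ∧ ∀ i, k ≤ i → i < g k → y i = false} ∈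
      residual _ := by
    intro N
    refine residual_of_dense_open ?_ ?_
    · refine isOpen_iff_mem_nhds.2 ?_
      rintro y ⟨k, hk, hy⟩
      filter_upwards [(isOpen_agree y (g k)).mem_nhds (fun _ _ => rfl)] with z hz
      exact ⟨k, hk, fun i h1 h2 => (hz i h2).trans (hy i h1 h2)⟩
    · intro f
      have h : Tendsto (fun M : ℕ => fun m => if m < M then f m else false) atTop (𝓝 f) := by
        refine tendsto_pi_nhds.2 fun i => tendsto_const_nhds.congr' ?_
        filter_upwards [eventually_gt_atTop i] with m hm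
        simp [hm]
      refine mem_closure_of_tendsto h (Eventually.of_forall fun M => ⟨max N M, le_max_left _ _,
        fun i hi _ => ?_⟩)
      have : ¬ i < M := by omega
      simp [this]
  by_contra hcon
  refine hY (mem_of_superset (countable_iInter_mem.2 h1) fun y hy hyY => hcon ⟨y, hyY, ?_⟩)
  exact fun N => mem_iInter.1 hy N

theorem completelyBaire_of_pfilter {F : Filter ℕ} (hF : IsNonmeagerPFilter F) :
    CompletelyBaire {y : ℕ → Bool | {m : ℕ | y m = true} ∈ F} := by
  classical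
  intro C hC
  refine ⟨fun U hUo hUd => dense_iff_inter_open.2 fun O hO hne => ?_⟩
  have : Nonempty C := hne.elim fun x _ => ⟨x⟩
  let π : C → ℕ → Bool := fun z => z.1.1
  have hπ : IsInducing π := IsInducing.subtypeVal.comp IsInducing.subtypeVal
  let d : ℕ → C := TopologicalSpace.denseSeq C
  have hd : DenseRange d := TopologicalSpace.denseRange_denseSeq C
  obtain ⟨t, htF, ht⟩ := hF.pseudo (fun m => {i | π (d m) i = true}) fun m => (d m).1.2
  -- approximating inside an open set by a point of the dense sequence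
  have happ : ∀ V : Set C, IsOpen V → V.Nonempty → ∀ k, ∃ m l, k ≤ l ∧ d m ∈ V ∧
      (∀ z : C, (∀ i < l, π z i = π (d m) i) → z ∈ V) ∧ ∀ i ∈ t, l ≤ i → π (d m) i = true := by
    intro V hV hVne k
    obtain ⟨m, hm⟩ := hd.exists_mem_open hV hVne
    have h1 := hV.mem_nhds hm
    rw [hπ.nhds_eq_comap, mem_comap] at h1
    obtain ⟨V', hV', hV'V⟩ := h1
    obtain ⟨l1, hl1⟩ := exists_agree hV'
    obtain ⟨l2, hl2⟩ := (ht m).bddAbove
    refine ⟨m, max k (max l1 (l2 + 1)), le_max_left _ _, hm,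
      fun z hz => hV'V (hl1 _ fun i hi => hz i (by omega)), fun i hi hli => ?_⟩
    by_contra hc
    have := hl2 ⟨hi, hc⟩
    omega
  have hstep : ∀ m k j : ℕ, ∃ m' l, k ≤ l ∧ (∀ i < k, π (d m') i = π (d m) i) ∧
      (∀ z : C, (∀ i < l, π z i = π (d m') i) → z ∈ U j) ∧
      ∀ i ∈ t, l ≤ i → π (d m') i = true := by
    intro m k j
    have ho : IsOpen (π ⁻¹' {z | ∀ i < k, z i = π (d m) i}) :=
      (isOpen_agree _ _).preimage hπ.continuous
    obtain ⟨m', l, h1, h2, h3, h4⟩ := happ _ (ho.inter (hUo j))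
      ((hUd j).inter_open_nonempty _ ho ⟨d m, fun _ _ => rfl⟩) k
    exact ⟨m', l, h1, h2.1, fun z hz => (h3 z hz).2, h4⟩
  choose M L hkL hM hLU hLt using hstep
  let g : ℕ → ℕ := fun k => (Finset.range (k + 1) ×ˢ Finset.range (k + 1)).sup
    fun p => L p.1 k p.2
  have hg : ∀ m k j, m ≤ k → j ≤ k → L m k j ≤ g k := by
    intro m k j h1 h2
    exact Finset.le_sup (f := fun p : ℕ × ℕ => L p.1 k p.2) (b := (m, j))
      (Finset.mem_product.2 ⟨Finset.mem_range.2 (by omega), Finset.mem_range.2 (by omega)⟩)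
  obtain ⟨y, hyF, hy⟩ := exists_gaps hF.nonmeager g
  choose K hK1 hK2 using hy
  obtain ⟨m0, l0, -, -, hO0, ht0⟩ := happ O hO hne 0
  -- the sequence of states (index of the current point, commitment length)
  let kk : ℕ → ℕ × ℕ → ℕ := fun j p => K (max (j + 1) (max p.1 p.2))
  let a : ℕ → ℕ × ℕ := fun j => Nat.rec (m0, l0) (fun j p => (M p.1 (kk j p) j, L p.1 (kk j p) j)) j
  let k : ℕ → ℕ := fun j => kk j (a j)
  have ha : ∀ j, a (j + 1) = (M (a j).1 (k j) j, L (a j).1 (k j) j) := fun j => rfl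
  have hk : ∀ j, j + 1 ≤ k j ∧ (a j).1 ≤ k j ∧ (a j).2 ≤ k j := by
    intro j
    have := hK1 (max (j + 1) (max (a j).1 (a j).2))
    simp only [k, kk]
    omega
  have hkl : ∀ j, k j ≤ (a (j + 1)).2 := fun j => by rw [ha]; exact hkL _ _ _
  have hmono : Monotone k := monotone_nat_of_le_succ fun j => (hkl j).trans (hk (j + 1)).2.2
  let z : ℕ → C := fun j => d (a j).1
  have hz1 : ∀ j, ∀ i < k j, π (z (j + 1)) i = π (z j) i := fun j => hM _ _ _
  have hz2 : ∀ j j', j ≤ j' → ∀ i < k j, π (z j') i = π (z j) i := by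
    intro j j' hj i hi
    induction j', hj using Nat.le_induction with
    | base => rfl
    | succ j' hj ih => rw [hz1 j' i (hi.trans_le (hmono hj)), ih]
  let x : ℕ → Bool := fun i => π (z i) i
  have hx : ∀ j, ∀ i < k j, x i = π (z j) i := by
    intro j i hi
    rcases le_total i j with h | h
    · exact (hz2 i j h i (hk i).1).symm
    · exact hz2 j i h i hi
  have hzt : ∀ j, ∀ i ∈ t, (a j).2 ≤ i → π (z j) i = true := by
    intro j
    cases j with
    | zero => exact ht0
    | succ j => exact hLt _ _ _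
  have hxt : ∀ j, ∀ i < k j, i ∈ t → y i = true → l0 ≤ i → x i = true := by
    intro j
    induction j with
    | zero => intro i hi hit _ hl; rw [hx 0 i hi]; exact hzt 0 i hit hl
    | succ j ih =>
      intro i hi hit hyi hl
      by_cases h : i < k j
      · exact ih i h hit hyi hl
      · rw [hx _ i hi]
        refine hzt (j + 1) i hit ?_
        have h1 : (a (j + 1)).2 ≤ g (k j) := by
          rw [ha]; exact hg _ _ _ (hk j).2.1 (by have := (hk j).1; omega)
        by_contra hc
        have := hK2 _ i (not_lt.1 h) (by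
          change i < g (k j)
          omega)
        rw [hyi] at this
        exact absurd this (by simp)
  have hxF : {m : ℕ | x m = true} ∈ F := by
    have h1 : {i : ℕ | l0 ≤ i} ∈ F := hF.free (by
      rw [Nat.cofinite_eq_atTop]; exact mem_atTop l0)
    filter_upwards [htF, hyF, h1] with i h1 h2 h3 using hxt i i (hk i).1 h1 h2 h3
  have hlim : Tendsto (fun j => (z j).1) atTop
      (𝓝 (⟨x, hxF⟩ : {y : ℕ → Bool | {m : ℕ | y m = true} ∈ F})) := by
    refine tendsto_subtype_rng.2 (tendsto_pi_nhds.2 fun i => tendsto_const_nhds.congr' ?_)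
    filter_upwards [eventually_ge_atTop i] with j hj
    exact hx j i (lt_of_lt_of_le (hk i).1 (hmono hj))
  have hxC := hC.mem_of_tendsto hlim (Eventually.of_forall fun j => (z j).2)
  refine ⟨⟨_, hxC⟩, hO0 _ fun i hi => hx 0 i (hi.trans_le (hk 0).2.2), mem_iInter.2 fun j => ?_⟩
  exact hLU (a j).1 (k j) j _ fun i hi => hx (j + 1) i (hi.trans_le (hk (j + 1)).2.2)

theorem free_of_pfilter {F : Filter ℕ} (hF : IsNonmeagerPFilter F) : FreeSubspacesExist := by
  refine free_of_centered (Y := {y : ℕ → Bool | {m : ℕ | y m = true} ∈ F}) ?_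
    (completelyBaire_of_pfilter hF) ?_
  · intro f
    have h : Tendsto (fun M : ℕ => fun m => if m < M then f m else true) atTop (𝓝 f) := by
      refine tendsto_pi_nhds.2 fun i => tendsto_const_nhds.congr' ?_
      filter_upwards [eventually_gt_atTop i] with m hm
      simp [hm]
    refine mem_closure_of_tendsto h (Eventually.of_forall fun M => hF.free ?_)
    rw [Nat.cofinite_eq_atTop]
    filter_upwards [eventually_ge_atTop M] with m hm
    simp [not_lt.2 hm]
  · intro s hs hfin
    have h1 : {m : ℕ | ∀ y ∈ s, y m = true} ∈ F := (eventually_all_finset s).2 fun y hy => hs hy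
    have h2 : {m : ℕ | ∀ y ∈ s, y m = true}ᶜ ∈ F := hF.free hfin.compl_mem_cofinite
    have := inter_mem h1 h2
    rw [inter_compl_self] at this
    exact hF.proper (empty_mem_iff_bot.1 this)

end Pool.Agent.MP_2aae10_lc
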