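import Pool.Agent.MP_2aae10_lc.Defs

-- part MP_2aae10_lc.Shrink
section

/-!
Shrinking finite families of nonempty open sets.
-/

namespace Pool.Agent.MP_2aae10_lc

open Set Filter Topology

variable {X : Type} {ι : Type}

structure Good [TopologicalSpace X] (V : ι → Set X) : Prop where
  op : ∀ i, IsOpen (V i)
  ne : ∀ i, (V i).Nonempty

lemma exists_shrink_finset [TopologicalSpace X] {τ : Type} (G : τ → (ι → Set X) → Prop)
    (mono : ∀ t V W, G t V → (∀ i, W i ⊆ V i) → G t W)
    (dens : ∀ t V, Good V → ∃ W, Good W ∧ (∀ i, W i ⊆ V i) ∧ G t W)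
    (s : Finset τ) (V : ι → Set X) (hV : Good V) :
    ∃ W, Good W ∧ (∀ i, W i ⊆ V i) ∧ ∀ t ∈ s, G t W := by
  classical
  induction s using Finset.induction_on with
  | empty => exact ⟨V, hV, fun _ => Subset.rfl, by simp⟩
  | insert a s _ ih =>
    obtain ⟨W, hW, hWV, hs⟩ := ih
    obtain ⟨W', hW', hW'W, ha⟩ := dens a W hW
    refine ⟨W', hW', fun i => (hW'W i).trans (hWV i), ?_⟩
    intro t ht
    rcases Finset.mem_insert.1 ht with rfl | ht
    · exact ha
    · exact mono _ _ _ (hs t ht) hW'W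

lemma exists_shrink_box [TopologicalSpace X] {n : ℕ} (D : Set (Fin n → X)) (hDo : IsOpen D)
    (hDd : Dense D) (σ : Fin n → ι) (hσ : Function.Injective σ) (V : ι → Set X) (hV : Good V) :
    ∃ W, Good W ∧ (∀ i, W i ⊆ V i) ∧ ∀ f : Fin n → X, (∀ j, f j ∈ W (σ j)) → f ∈ D := by
  classical
  have hbox : IsOpen (Set.pi univ fun j => V (σ j)) := isOpen_set_pi finite_univ fun j _ => hV.op _
  have hne : (Set.pi univ fun j => V (σ j)).Nonempty := univ_pi_nonempty_iff.2 fun j => hV.ne _
  obtain ⟨f0, hf0, hf0D⟩ := hDd.inter_open_nonempty _ hbox hne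
  obtain ⟨u, hu, huD⟩ := isOpen_pi_iff'.1 hDo f0 hf0D
  refine ⟨fun i => V i ∩ ⋂ j ∈ {j | σ j = i}, u j, ⟨fun i => ?_, fun i => ?_⟩,
    fun i => inter_subset_left, fun f hf => huD fun j _ => ?_⟩
  · exact (hV.op i).inter ((toFinite _).isOpen_biInter fun j _ => (hu j).1)
  · by_cases h : ∃ j, σ j = i
    · obtain ⟨j, rfl⟩ := h
      refine ⟨f0 j, hf0 j (mem_univ _), mem_iInter₂.2 fun j' hj' => ?_⟩
      have : j' = j := hσ hj'
      rw [this]; exact (hu j).2
    · obtain ⟨x, hx⟩ := hV.ne i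
      exact ⟨x, hx, mem_iInter₂.2 fun j hj => absurd ⟨j, hj⟩ h⟩
  · exact mem_iInter₂.1 (hf j).2 j rfl

lemma exists_small [MetricSpace X] [PerfectSpace X] {V W : Set X} (hW : IsOpen W)
    (hne : W.Nonempty) (hWV : W ⊆ V) {ε : ℝ} (hε : 0 < ε) :
    ∃ U : Set X, IsOpen U ∧ U.Nonempty ∧ U ⊆ W ∧ closure U ⊆ V ∧ (V \ closure U).Nonempty ∧
      ∀ x ∈ U, ∀ y ∈ U, dist x y ≤ ε := by
  obtain ⟨p, hp⟩ := hne
  have hperf : Preperfect (univ : Set X) := PerfectSpace.univ_preperfect
  obtain ⟨q, hq, hqp⟩ := preperfect_iff_nhds.1 hperf p (mem_univ _) W (hW.mem_nhds hp)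
  obtain ⟨r, hr, hrW⟩ := Metric.nhds_basis_closedBall.mem_iff.1 (hW.mem_nhds hp)
  have hd : 0 < dist q p := dist_pos.2 hqp
  set ρ := min r (min (ε / 2) (dist q p / 2)) with hρ
  have hρ0 : 0 < ρ := lt_min hr (lt_min (by linarith) (by linarith))
  have h1 : ρ ≤ r := min_le_left _ _
  have h2 : ρ ≤ ε / 2 := (min_le_right _ _).trans (min_le_left _ _)
  have h3 : ρ ≤ dist q p / 2 := (min_le_right _ _).trans (min_le_right _ _)
  have hcl : closure (Metric.ball p ρ) ⊆ Metric.closedBall p ρ := Metric.closure_ball_subset_closedBall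
  have hsub : Metric.closedBall p ρ ⊆ W := (Metric.closedBall_subset_closedBall h1).trans hrW
  refine ⟨Metric.ball p ρ, Metric.isOpen_ball, ⟨p, Metric.mem_ball_self hρ0⟩,
    Metric.ball_subset_closedBall.trans hsub, hcl.trans (hsub.trans hWV),
    ⟨q, hWV hq.1, fun h => ?_⟩, fun x hx y hy => ?_⟩
  · have := Metric.mem_closedBall.1 (hcl h)
    linarith
  · have := dist_triangle_right x y p
    have := Metric.mem_ball.1 hx
    have := Metric.mem_ball.1 hy
    linarith

/-- One step of the scheme. -/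
lemma exists_step [MetricSpace X] [PerfectSpace X] [Fintype ι] (n : ℕ → ℕ)
    (D : ∀ k : ℕ, ℕ → Set (Fin (n k) → X)) (hDo : ∀ k l, IsOpen (D k l))
    (hDd : ∀ k l, Dense (D k l)) (O : Set X) (hO : IsOpen O) (m : ℕ) (V : ι → Set X)
    (hV : Good V) :
    ∃ W, Good W ∧ (∀ i, closure (W i) ⊆ V i) ∧ (∀ i, (V i \ closure (W i)).Nonempty) ∧
      (∀ i, ∀ x ∈ W i, ∀ y ∈ W i, dist x y ≤ 1 / ((m : ℝ) + 1)) ∧
      ((∃ i, (O ∩ V i).Nonempty) → ∃ i, W i ⊆ O) ∧
      ∀ k ≤ m, ∀ l ≤ m, ∀ σ : Fin (n k) → ι, Function.Injective σ →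
        ∀ f : Fin (n k) → X, (∀ j, f j ∈ W (σ j)) → f ∈ D k l := by
  classical
  obtain ⟨V1, hV1, hV1V, hV1O⟩ : ∃ V1, Good V1 ∧ (∀ i, V1 i ⊆ V i) ∧
      ((∃ i, (O ∩ V i).Nonempty) → ∃ i, V1 i ⊆ O) := by
    refine ⟨fun i => if (O ∩ V i).Nonempty then O ∩ V i else V i, ⟨fun i => ?_, fun i => ?_⟩,
      fun i => ?_, ?_⟩
    · split_ifs
      · exact hO.inter (hV.op i)
      · exact hV.op i
    · split_ifs with h
      · exact h
      · exact hV.ne i
    · dsimp only
      split_ifs
      · exact inter_subset_right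
      · exact Subset.rfl
    · rintro ⟨i, hi⟩
      exact ⟨i, by simp only [hi, if_true]; exact inter_subset_left⟩
  let τ := Σ k : Fin (m + 1), Fin (m + 1) × (Fin (n k) → ι)
  let G : τ → (ι → Set X) → Prop := fun t W => Function.Injective t.2.2 →
    ∀ f : Fin (n t.1) → X, (∀ j, f j ∈ W (t.2.2 j)) → f ∈ D t.1 t.2.1
  obtain ⟨V2, hV2, hV21, hG⟩ := exists_shrink_finset G
    (fun t V W h hWV hi f hf => h hi f fun j => hWV _ (hf j))
    (fun t V hV => by
      by_cases hi : Function.Injective t.2.2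
      · obtain ⟨W, h1, h2, h3⟩ := exists_shrink_box (D t.1 t.2.1) (hDo _ _) (hDd _ _) t.2.2 hi V hV
        exact ⟨W, h1, h2, fun _ => h3⟩
      · exact ⟨V, hV, fun _ => Subset.rfl, fun h => absurd h hi⟩)
    Finset.univ V1 hV1
  have hε : (0 : ℝ) < 1 / ((m : ℝ) + 1) := by positivity
  choose W h1 h2 h3 h4 h5 h6 using fun i => exists_small (hV2.op i) (hV2.ne i)
    ((hV21 i).trans (hV1V i)) hε
  refine ⟨W, ⟨h1, h2⟩, h4, h5, h6, fun h => ?_, fun k hk l hl σ hσ f hf => ?_⟩
  · obtain ⟨i, hi⟩ := hV1O h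
    exact ⟨i, (h3 i).trans ((hV21 i).trans hi)⟩
  · exact hG ⟨⟨k, by omega⟩, ⟨l, by omega⟩, σ⟩ (Finset.mem_univ _) hσ f fun j => h3 _ (hf j)

end Pool.Agent.MP_2aae10_lc

end

-- part MP_2aae10_lc.Scheme
section

/-!
A binary scheme of open sets whose right-hand pieces are small and mutually generic.
-/

namespace Pool.Agent.MP_2aae10_lc

open Set Filter Topology

variable {X : Type}

/-- restriction of a point of Cantor space to the first `m` coordinates -/
def res (y : ℕ → Bool) (m : ℕ) : Fin m → Bool := fun i => y i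

lemma init_res (y : ℕ → Bool) (m : ℕ) : Fin.init (res y (m + 1)) = res y m := rfl

lemma res_last (y : ℕ → Bool) (m : ℕ) : res y (m + 1) (Fin.last m) = y m := rfl

/-- the scheme built from a step function -/
def scheme [TopologicalSpace X]
    (Wf : ∀ m : ℕ, ((Fin m → Bool) → Set X) → (Fin m → Bool) → Set X) :
    ∀ m : ℕ, (Fin m → Bool) → Set X
  | 0 => fun _ => univ
  | m + 1 => fun t => if t (Fin.last m) = true then Wf m (scheme Wf m) (Fin.init t)
      else scheme Wf m (Fin.init t) \ closure (Wf m (scheme Wf m) (Fin.init t))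

structure IsScheme [MetricSpace X] (n : ℕ → ℕ) (D : ∀ k : ℕ, ℕ → Set (Fin (n k) → X))
    (P W : ∀ m : ℕ, (Fin m → Bool) → Set X) : Prop where
  good : ∀ m, Good (P m)
  succ_true : ∀ m t, t (Fin.last m) = true → P (m + 1) t = W m (Fin.init t)
  succ_false : ∀ m t, t (Fin.last m) = false →
    P (m + 1) t = P m (Fin.init t) \ closure (W m (Fin.init t))
  cl : ∀ m s, closure (W m s) ⊆ P m s
  small : ∀ m s, ∀ x ∈ W m s, ∀ y ∈ W m s, dist x y ≤ 1 / ((m : ℝ) + 1)
  dense : ∀ O : Set X, IsOpen O → O.Nonempty → ∃ m s, W m s ⊆ O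
  gen : ∀ m, ∀ k ≤ m, ∀ l ≤ m, ∀ σ : Fin (n k) → (Fin m → Bool), Function.Injective σ →
    ∀ f : Fin (n k) → X, (∀ j, f j ∈ W m (σ j)) → f ∈ D k l

lemma exists_scheme [MetricSpace X] [PerfectSpace X] [Nonempty X]
    [TopologicalSpace.SeparableSpace X] (n : ℕ → ℕ)
    (D : ∀ k : ℕ, ℕ → Set (Fin (n k) → X)) (hDo : ∀ k l, IsOpen (D k l))
    (hDd : ∀ k l, Dense (D k l)) : ∃ P W, IsScheme n D P W := by
  classical
  let O : ℕ → Set X := fun m =>
    Metric.ball (TopologicalSpace.denseSeq X m.unpair.1) (1 / ((m.unpair.2 : ℝ) + 1))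
  have hO : ∀ m, IsOpen (O m) := fun m => Metric.isOpen_ball
  have hOne : ∀ m, (O m).Nonempty := fun m => ⟨_, Metric.mem_ball_self (by positivity)⟩
  have hOb : ∀ U : Set X, IsOpen U → U.Nonempty → ∃ m, O m ⊆ U := by
    rintro U hU ⟨x, hx⟩
    obtain ⟨r, hr, hrU⟩ := Metric.isOpen_iff.1 hU x hx
    obtain ⟨b, hb⟩ := exists_nat_one_div_lt (show (0 : ℝ) < r / 2 by linarith)
    obtain ⟨a, ha⟩ := Metric.denseRange_iff.1 (TopologicalSpace.denseRange_denseSeq X) x (r / 2)
      (by linarith)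
    refine ⟨Nat.pair a b, fun z hz => hrU ?_⟩
    simp only [O, Nat.unpair_pair, Metric.mem_ball] at hz ⊢
    have := dist_triangle z (TopologicalSpace.denseSeq X a) x
    rw [dist_comm] at ha
    linarith
  choose! Wf h1 h2 h3 h4 h5 h6 using fun (m : ℕ) (V : (Fin m → Bool) → Set X) (hV : Good V) =>
    exists_step n D hDo hDd (O m) (hO m) m V hV
  have hT : ∀ m t, t (Fin.last m) = true →
      scheme Wf (m + 1) t = Wf m (scheme Wf m) (Fin.init t) := by
    intro m t ht
    simp only [scheme, ht, if_true]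
  have hF : ∀ m t, t (Fin.last m) = false → scheme Wf (m + 1) t =
      scheme Wf m (Fin.init t) \ closure (Wf m (scheme Wf m) (Fin.init t)) := by
    intro m t ht
    simp [scheme, ht]
  have hgood : ∀ m, Good (scheme Wf m) := by
    intro m
    induction m with
    | zero => exact ⟨fun _ => isOpen_univ, fun _ => univ_nonempty⟩
    | succ m ih =>
      constructor
      · intro t
        cases ht : t (Fin.last m)
        · rw [hF m t ht]; exact (ih.op _).sdiff isClosed_closure
        · rw [hT m t ht]; exact (h1 m _ ih).op _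
      · intro t
        cases ht : t (Fin.last m)
        · rw [hF m t ht]; exact h3 m _ ih _
        · rw [hT m t ht]; exact (h1 m _ ih).ne _
  have hden : ∀ m, ∀ U : Set X, IsOpen U → U.Nonempty → ∃ s, (U ∩ scheme Wf m s).Nonempty := by
    intro m
    induction m with
    | zero => intro U _ hU; exact ⟨fun _ => true, by simpa [scheme] using hU⟩
    | succ m ih =>
      intro U hU hne
      obtain ⟨s, x, hx⟩ := ih U hU hne
      by_cases h : x ∈ closure (Wf m (scheme Wf m) s)
      · refine ⟨Fin.snoc s true, ?_⟩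
        rw [hT m _ (by simp), Fin.init_snoc]
        exact mem_closure_iff.1 h U hU hx.1
      · refine ⟨Fin.snoc s false, ?_⟩
        rw [hF m _ (by simp), Fin.init_snoc]
        exact ⟨x, hx.1, hx.2, h⟩
  refine ⟨scheme Wf, fun m => Wf m (scheme Wf m), hgood, hT, hF, fun m => h2 m _ (hgood m),
    fun m => h4 m _ (hgood m), fun U hU hne => ?_, fun m => h6 m _ (hgood m)⟩
  obtain ⟨m, hm⟩ := hOb U hU hne
  obtain ⟨s, hs⟩ := h5 m _ (hgood m) (hden m _ (hO m) (hOne m))
  exact ⟨m, s, hs.trans hm⟩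

section
variable [MetricSpace X] {n : ℕ → ℕ} {D : ∀ k : ℕ, ℕ → Set (Fin (n k) → X)}
  {P W : ∀ m : ℕ, (Fin m → Bool) → Set X}

lemma IsScheme.succ_subset (h : IsScheme n D P W) (m : ℕ) (t : Fin (m + 1) → Bool) :
    P (m + 1) t ⊆ P m (Fin.init t) := by
  cases ht : t (Fin.last m)
  · rw [h.succ_false m t ht]; exact sdiff_subset
  · rw [h.succ_true m t ht]; exact subset_closure.trans (h.cl _ _)

lemma IsScheme.anti (h : IsScheme n D P W) (y : ℕ → Bool) :
    Antitone fun m => P m (res y m) :=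
  antitone_nat_of_succ_le fun m => h.succ_subset m (res y (m + 1))

lemma IsScheme.uniq (h : IsScheme n D P W) (m : ℕ) (s t : Fin m → Bool) {x : X}
    (hs : x ∈ P m s) (ht : x ∈ P m t) : s = t := by
  induction m with
  | zero => exact Subsingleton.elim _ _
  | succ m ih =>
    have h1 : Fin.init s = Fin.init t := ih _ _ (h.succ_subset m s hs) (h.succ_subset m t ht)
    have h2 : s (Fin.last m) = t (Fin.last m) := by
      cases hs' : s (Fin.last m) <;> cases ht' : t (Fin.last m)
      · rfl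
      · rw [h.succ_false m s hs'] at hs
        rw [h.succ_true m t ht', ← h1] at ht
        exact absurd (subset_closure ht) hs.2
      · rw [h.succ_false m t ht'] at ht
        rw [h.succ_true m s hs', h1] at hs
        exact absurd (subset_closure hs) ht.2
      · rfl
    rw [← Fin.snoc_init_self s, ← Fin.snoc_init_self t, h1, h2]

lemma IsScheme.succ_res (h : IsScheme n D P W) {y : ℕ → Bool} {m : ℕ} (hm : y m = true) :
    P (m + 1) (res y (m + 1)) = W m (res y m) := h.succ_true m _ hm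

lemma IsScheme.exists_point [CompleteSpace X] (h : IsScheme n D P W) {y : ℕ → Bool}
    (hy : {m | y m = true}.Infinite) : ∃ x, ∀ m, x ∈ P m (res y m) := by
  choose u hu using fun m => (h.good m).ne (res y m)
  have hin : ∀ m, y m = true → ∀ j, m + 1 ≤ j → u j ∈ W m (res y m) := by
    intro m hm j hj
    rw [← h.succ_res hm]
    exact h.anti y hj (hu j)
  have hc : CauchySeq u := by
    refine Metric.cauchySeq_iff.2 fun ε hε => ?_
    obtain ⟨b, hb⟩ := exists_nat_one_div_lt hε
    obtain ⟨m, hm, hbm⟩ := hy.exists_gt b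
    refine ⟨m + 1, fun i hi j hj => ?_⟩
    refine (h.small m _ _ (hin m hm i hi) _ (hin m hm j hj)).trans_lt (lt_of_le_of_lt ?_ hb)
    exact Nat.one_div_le_one_div hbm.le
  obtain ⟨x, hx⟩ := cauchySeq_tendsto_of_complete hc
  refine ⟨x, fun j => ?_⟩
  obtain ⟨m, hm, hjm⟩ := hy.exists_gt j
  refine h.anti y hjm.le (h.cl m _ ?_)
  exact mem_closure_of_tendsto hx (eventually_atTop.2 ⟨m + 1, hin m hm⟩)

end

end Pool.Agent.MP_2aae10_lc

end

-- part MP_2aae10_lc.Reduce
section

/-!
The general statement is equivalent to the existence of a dense completely Baire centered family.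
-/

namespace Pool.Agent.MP_2aae10_lc

open Set Filter Topology

lemma completelyBaire_range {X Z : Type} [TopologicalSpace X] [TopologicalSpace Z] {Y : Set Z}
    (hY : CompletelyBaire Y) {ψ : Y → X} (hψ : IsEmbedding ψ) : CompletelyBaire (range ψ) := by
  intro C hC
  let e := hψ.toHomeomorph
  have h1 : IsClosed (e ⁻¹' C) := hC.preimage e.continuous
  have := hY _ h1
  let e2 : (e ⁻¹' C) ≃ₜ C := e.sets rfl
  exact e2.symm.isOpenEmbedding.baireSpace

lemma exists_dense_open_seq {Z : Type} [TopologicalSpace Z] {R : Set Z} (hR : IsMeagre R) :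
    ∃ D : ℕ → Set Z, (∀ l, IsOpen (D l)) ∧ (∀ l, Dense (D l)) ∧ ∀ z, (∀ l, z ∈ D l) → z ∉ R := by
  obtain ⟨S, h1, h2, h3, h4⟩ := mem_residual_iff.1 hR
  obtain ⟨D, hD⟩ := (h3.insert univ).exists_eq_range (insert_nonempty _ _)
  have hmem : ∀ l, D l ∈ insert univ S := fun l => hD ▸ mem_range_self l
  refine ⟨D, fun l => ?_, fun l => ?_, fun z hz => h4 fun t ht => ?_⟩
  · rcases hmem l with h | h
    · rw [h]; exact isOpen_univ
    · exact h1 _ h
  · rcases hmem l with h | h
    · rw [h]; exact dense_univ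
    · exact h2 _ h
  · have : t ∈ range D := hD ▸ mem_insert_of_mem _ ht
    obtain ⟨l, rfl⟩ := this
    exact hz l

lemma isOpen_res (m : ℕ) (s : Fin m → Bool) : IsOpen {y : ℕ → Bool | res y m = s} := by
  have : Continuous fun y : ℕ → Bool => res y m := continuous_pi fun i => continuous_apply _
  exact (isOpen_discrete {s}).preimage this

theorem free_of_centered {Y : Set (ℕ → Bool)} (hd : Dense Y) (hB : CompletelyBaire Y)
    (hc : Centered Y) : FreeSubspacesExist := by
  classical
  intro X _ _ _ n R hn hR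
  rcases isEmpty_or_nonempty X with hX | hX
  · refine ⟨∅, fun x => hX.elim x, fun C _ => ?_, fun k f _ hf => ?_⟩
    · exact ⟨fun f _ _ x => absurd x.1.2 (notMem_empty _)⟩
    · have h0 : (0 : ℕ) < n k := hn k
      exact absurd (hf ⟨0, h0⟩) (notMem_empty _)
  let := TopologicalSpace.upgradeIsCompletelyMetrizable X
  choose D hDo hDd hDR using fun k => exists_dense_open_seq (hR k)
  obtain ⟨P, W, h⟩ := exists_scheme n D hDo hDd
  have hinf : ∀ y : Y, {m | y.1 m = true}.Infinite := by
    intro y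
    simpa using hc {y.1} (by simp)
  choose ψ hψ using fun y : Y => h.exists_point (hinf y)
  have hW : ∀ (y : Y) (m : ℕ), y.1 m = true → ψ y ∈ W m (res y.1 m) := by
    intro y m hm
    rw [← h.succ_res hm]; exact hψ y _
  have hcont : Continuous ψ := by
    refine continuous_iff_continuousAt.2 fun y => Metric.tendsto_nhds.2 fun ε hε => ?_
    obtain ⟨b, hb⟩ := exists_nat_one_div_lt hε
    obtain ⟨m, hm, hbm⟩ := (hinf y).exists_gt b
    have hU : {z : Y | res z.1 (m + 1) = res y.1 (m + 1)} ∈ 𝓝 y :=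
      ((isOpen_res _ _).preimage continuous_subtype_val).mem_nhds rfl
    filter_upwards [hU] with z hz
    have h1 : ψ z ∈ W m (res y.1 m) := by
      rw [← h.succ_res hm, ← hz]; exact hψ z _
    refine (h.small m _ _ h1 _ (hW y m hm)).trans_lt (lt_of_le_of_lt ?_ hb)
    exact Nat.one_div_le_one_div hbm.le
  have hres : ∀ (y : Y) (m : ℕ) (s : Fin m → Bool), ψ y ∈ P m s → res y.1 m = s :=
    fun y m s hs => h.uniq m _ _ (hψ y m) hs
  have hinj : Function.Injective ψ := by
    intro y z hyz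
    refine Subtype.ext (funext fun m => ?_)
    have := hres y (m + 1) _ (hyz ▸ hψ z (m + 1))
    exact congrFun this (Fin.last m)
  have hind : IsInducing ψ := by
    refine isInducing_iff_nhds.2 fun y => le_antisymm (hcont.tendsto y).le_comap ?_
    have key : Tendsto (Subtype.val : Y → ℕ → Bool) (comap ψ (𝓝 (ψ y))) (𝓝 y.1) →
        comap ψ (𝓝 (ψ y)) ≤ 𝓝 y := by
      intro ht
      rw [nhds_subtype_eq_comap]; exact ht.le_comap
    refine key (tendsto_pi_nhds.2 fun m => ?_)
    rw [nhds_discrete Bool, tendsto_pure]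
    have h1 : P (m + 1) (res y.1 (m + 1)) ∈ 𝓝 (ψ y) := ((h.good _).op _).mem_nhds (hψ y _)
    filter_upwards [preimage_mem_comap h1] with z hz
    exact congrFun (hres z _ _ hz) (Fin.last m)
  refine ⟨range ψ, ?_, completelyBaire_range hB ⟨hind, hinj⟩, fun k f hf hfA => ?_⟩
  · refine dense_iff_inter_open.2 fun U hU hne => ?_
    obtain ⟨m, s, hs⟩ := h.dense U hU hne
    obtain ⟨y, hy, hyY⟩ := hd.inter_open_nonempty _ (isOpen_res (m + 1) (Fin.snoc s true))
      ⟨fun i => if hi : i < m + 1 then (Fin.snoc s true : Fin (m + 1) → Bool) ⟨i, hi⟩ else true,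
        funext fun i => by simp [res, i.2]⟩
    refine ⟨ψ ⟨y, hyY⟩, hs ?_, mem_range_self _⟩
    have h1 := hψ ⟨y, hyY⟩ (m + 1)
    rw [show res y (m + 1) = Fin.snoc s true from hy, h.succ_true m _ (by simp),
      Fin.init_snoc] at h1
    exact h1
  · choose g hg using hfA
    have hgi : Function.Injective fun j => (g j).1 := by
      intro i j hij
      apply hf
      rw [← hg i, ← hg j, Subtype.ext hij]
    have hI := hc (Finset.univ.image fun j => (g j).1) (by
      intro y hy
      obtain ⟨j, -, rfl⟩ := Finset.mem_image.1 hy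
      exact (g j).2)
    have hsep : ∀ᶠ m in atTop, Function.Injective fun j => res (g j).1 m := by
      have : ∀ p : Fin (n k) × Fin (n k), ∀ᶠ m in atTop,
          res (g p.1).1 m = res (g p.2).1 m → p.1 = p.2 := by
        intro p
        by_cases hp : (g p.1).1 = (g p.2).1
        · exact Eventually.of_forall fun _ _ => hgi hp
        · obtain ⟨a, ha⟩ := Function.ne_iff.1 hp
          filter_upwards [eventually_gt_atTop a] with m hm heq
          exact absurd (congrFun heq ⟨a, hm⟩) ha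
      filter_upwards [eventually_all.2 this] with m hm i j hij using hm (i, j) hij
    obtain ⟨N, hN⟩ := eventually_atTop.1 hsep
    refine hDR k f fun l => ?_
    obtain ⟨m, hm, hlt⟩ := hI.exists_gt (max N (max k l))
    have hm' : ∀ j, (g j).1 m = true := fun j =>
      hm _ (Finset.mem_image.2 ⟨j, Finset.mem_univ _, rfl⟩)
    refine h.gen m k (by omega) l (by omega) _ (hN m (by omega)) f fun j => ?_
    rw [← hg j]; exact hW _ m (hm' j)

instance : PerfectSpace (ℕ → Bool) := by
  refine ⟨preperfect_iff_nhds.2 fun x _ U hU => ?_⟩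
  have h : Tendsto (fun m : ℕ => Function.update x m (!x m)) atTop (𝓝 x) := by
    refine tendsto_pi_nhds.2 fun i => tendsto_const_nhds.congr' ?_
    filter_upwards [eventually_gt_atTop i] with m hm
    rw [Function.update_of_ne hm.ne]
  obtain ⟨m, hm⟩ := (h.eventually hU).exists
  refine ⟨_, ⟨hm, mem_univ _⟩, fun he => ?_⟩
  have := congrFun he m
  simp at this

lemma meagre_finite_inter (k : ℕ) :
    IsMeagre {f : Fin k → ℕ → Bool | {m : ℕ | ∀ j, f j m = true}.Finite} := by
  have h1 : ∀ N : ℕ, {f : Fin k → ℕ → Bool | ∃ m, N ≤ m ∧ ∀ j, f j m = true} ∈ residual _ := by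
    intro N
    refine residual_of_dense_open ?_ ?_
    · simp only [ofPred_exists, ofPred_and, ofPred_forall]
      refine isOpen_iUnion fun m => IsOpen.inter (by by_cases h : N ≤ m <;> simp [h]) ?_
      refine isOpen_iInter_of_finite fun j => ?_
      have : Continuous fun f : Fin k → ℕ → Bool => f j m :=
        (continuous_apply m).comp (continuous_apply j)
      exact (isOpen_discrete {true}).preimage this
    · intro f
      have h : Tendsto (fun M : ℕ => fun j m => if m < M then f j m else true) atTop (𝓝 f) := by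
        refine tendsto_pi_nhds.2 fun j => tendsto_pi_nhds.2 fun i => tendsto_const_nhds.congr' ?_
        filter_upwards [eventually_gt_atTop i] with m hm
        simp [hm]
      refine mem_closure_of_tendsto h (Eventually.of_forall fun M => ⟨max N M, le_max_left _ _,
        fun j => ?_⟩)
      simp
  refine mem_of_superset (countable_iInter_mem.2 h1) fun f hf hfin => ?_
  obtain ⟨N, hN⟩ := hfin.bddAbove
  obtain ⟨m, hm, hm'⟩ := mem_iInter.1 hf (N + 1)
  have := hN hm'
  omega

theorem centered_of_free (h : FreeSubspacesExist) :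
    ∃ Y : Set (ℕ → Bool), Dense Y ∧ CompletelyBaire Y ∧ Centered Y := by
  have hP : PolishSpace (ℕ → Bool) := PolishSpace.mk
  obtain ⟨A, h1, h2, h3⟩ := @h (ℕ → Bool) _ hP _ (fun k => k + 1)
    (fun k => {f | {m : ℕ | ∀ j, f j m = true}.Finite}) (fun k => by omega)
    (fun k => meagre_finite_inter _)
  refine ⟨A, h1, h2, fun s hs => ?_⟩
  rcases s.eq_empty_or_nonempty with rfl | hne
  · simpa using infinite_univ
  obtain ⟨k, hk⟩ : ∃ k, s.card = k + 1 := ⟨s.card - 1, by have := hne.card_pos; omega⟩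
  let e := (s.equivFinOfCardEq hk).symm
  have h4 := h3 k (fun j => (e j).1) (Subtype.val_injective.comp e.injective)
    (fun j => hs (e j).2)
  refine fun hfin => h4 (hfin.subset fun m hm y hy => ?_)
  obtain ⟨j, hj⟩ := e.surjective ⟨y, hy⟩
  have : (e j).1 m = true := hm j
  rwa [hj] at this

end Pool.Agent.MP_2aae10_lc

end
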